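import Pool.Agent.W601.SQ.Stm

/-!
# Project SQ: closed subgroups are annihilators
-/

set_option autoImplicit false
open scoped Classical Cardinal
open Filter Topology

namespace Pool.Agent.W308.SQ

open Pool.Agent.W601.SQ

variable {ι : Type}

theorem ch_cont (k : ι →₀ ℤ) : Continuous fun x : ι → Circle => ch k x := by
  unfold ch Finsupp.prod
  exact continuous_finsetProd _ fun i _ => (continuous_apply i).zpow _

theorem ch_mul (k : ι →₀ ℤ) (x y : ι → Circle) : ch k (x * y) = ch k x * ch k y := by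
  unfold ch Finsupp.prod
  rw [← Finset.prod_mul_distrib]
  refine Finset.prod_congr rfl fun i _ => ?_
  show (x * y) i ^ k i = x i ^ k i * y i ^ k i
  rw [Pi.mul_apply, mul_zpow]

/-- the character as a continuous function -/
noncomputable def chC (k : ι →₀ ℤ) : C(ι → Circle, ℂ) :=
  ⟨fun x => ((ch k x : Circle) : ℂ), continuous_subtype_val.comp (ch_cont k)⟩

theorem ann : S_SW → S_AVG → S_ANN := by
  intro hSW hAVG ι K g hg
  by_contra hcon
  push Not at hcon
  set L : Subgroup (ι → Circle) := K.topologicalClosure with hL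
  have hLc : IsClosed (L : Set (ι → Circle)) := K.isClosed_topologicalClosure
  have hgL : g ∉ L := by
    intro h
    exact hg h
  have hKL : ∀ x ∈ K, x ∈ L := fun x hx => K.le_topologicalClosure hx
  have hgLc : IsClosed {x : ι → Circle | g⁻¹ * x ∈ L} :=
    hLc.preimage (continuous_const.mul continuous_id)
  have hdis : Disjoint (L : Set (ι → Circle)) {x : ι → Circle | g⁻¹ * x ∈ L} := by
    rw [Set.disjoint_left]
    intro x hx hx'
    have h1 : g⁻¹ * x * x⁻¹ ∈ L := L.mul_mem hx' (L.inv_mem hx)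
    rw [mul_inv_cancel_right] at h1
    exact hgL (by simpa using L.inv_mem h1)
  obtain ⟨f0, h0, h1, -⟩ := exists_continuous_zero_one_of_isClosed hLc hgLc hdis
  let f : C(ι → Circle, ℂ) := ⟨fun x => ((f0 x : ℝ) : ℂ), Complex.continuous_ofReal.comp f0.2⟩
  obtain ⟨P, hP⟩ := hSW ι f (1 / 3) (by norm_num)
  obtain ⟨A, hA1, hA2, hA3⟩ := hAVG ι L hLc
  let f1 : C(ι → Circle, ℂ) := ∑ k ∈ P.support, P k • chC k
  let f2 : C(ι → Circle, ℂ) := ∑ k ∈ P.support, (P k * ((ch k g : Circle) : ℂ)) • chC k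
  have hf1 : ∀ x, f1 x = P.sum fun k c => c * ((ch k x : Circle) : ℂ) := by
    intro x
    simp only [f1, ContinuousMap.coe_sum, Finset.sum_apply, ContinuousMap.coe_smul, Pi.smul_apply,
      smul_eq_mul, Finsupp.sum]
    rfl
  have hf2 : ∀ x, f2 x = P.sum fun k c => c * ((ch k (g * x) : Circle) : ℂ) := by
    intro x
    simp only [f2, ContinuousMap.coe_sum, Finset.sum_apply, ContinuousMap.coe_smul, Pi.smul_apply,
      smul_eq_mul, Finsupp.sum]
    refine Finset.sum_congr rfl fun k _ => ?_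
    rw [ch_mul, Circle.coe_mul, mul_assoc]
    rfl
  have hAf : A f1 = A f2 := by
    simp only [f1, f2, map_sum, map_smul, smul_eq_mul]
    refine Finset.sum_congr rfl fun k _ => ?_
    by_cases hk : ∀ x ∈ L, ch k x = 1
    · have : ch k g = 1 := hcon k fun x hx => hk x (hKL x hx)
      rw [this, Circle.coe_one, mul_one]
    · push Not at hk
      have : A (chC k) = 0 := hA3 (chC k) k 1 (fun x _ => by rw [one_mul]; rfl) hk
      rw [this, mul_zero, mul_zero]
  have h3 : ‖A f1‖ ≤ 1 / 3 := by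
    refine hA1 f1 (1 / 3) fun x hx => ?_
    have h4 := hP x
    rw [← hf1] at h4
    have h5 : f x = 0 := by
      show ((f0 x : ℝ) : ℂ) = 0
      rw [h0 hx]
      simp
    rw [h5, zero_sub, norm_neg] at h4
    exact h4.le
  have h6 : ‖A (f2 - 1)‖ ≤ 1 / 3 := by
    refine hA1 _ (1 / 3) fun x hx => ?_
    have h4 := hP (g * x)
    rw [← hf2] at h4
    have h5 : f (g * x) = 1 := by
      show ((f0 (g * x) : ℝ) : ℂ) = 1
      have hx' : g * x ∈ {x : ι → Circle | g⁻¹ * x ∈ L} := by
        show g⁻¹ * (g * x) ∈ L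
        rw [inv_mul_cancel_left]
        exact hx
      rw [h1 hx']
      simp
    rw [h5, norm_sub_rev] at h4
    exact h4.le
  have h7 : A 1 = 1 := hA2 1 1 fun x _ => rfl
  rw [map_sub, h7, ← hAf] at h6
  have h8 : (1 : ℝ) ≤ ‖A f1‖ + ‖A f1 - 1‖ := by
    have h9 := norm_sub_le (A f1) (A f1 - 1)
    rw [sub_sub_cancel, norm_one] at h9
    exact h9
  linarith

end Pool.Agent.W308.SQ
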